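import Pool.Agent.Helper69.UX.StD

/-!
Project UX (MP_e12aa9_pr), module NIR: the unmatched classes.
-/

set_option autoImplicit false

namespace Pool.Agent.Helper98.UX

open Finset Filter Pool.Agent.Helper82.CN Pool.Agent.Helper11.PV Pool.Agent.Helper69.VX
  Pool.Agent.Helper69.UX

private theorem bb_pos {p : ℝ} (h0 : 0 < p) (h1 : p ≤ 1 - 1 / Real.exp 2) : 0 < bb p := by
  unfold bb
  have h2 : (0 : ℝ) < 1 / Real.exp 2 := by positivity
  have h3 : 0 < 1 - p := by linarith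
  refine Real.log_pos ?_
  rw [lt_div_iff₀ h3]
  linarith

private theorem aux1 {T s lam w X La : ℝ} (hs : 0 ≤ s) (hlam4 : 4 ≤ lam) (hw0 : 0 < w)
    (hX0 : 0 ≤ X) (hXl : X ≤ lam) (hLa0 : 0 ≤ La) (hLal : La ≤ lam / 2)
    (hT1 : T ≤ 9 / 4 * lam * w) (hT0 : 0 ≤ T) :
    (s + 1) * (1 + 3 * lam + T * X + (3 + La) ^ 2 * w / 2) ≤
      (12 + 20 * w) * (s + 1) * lam ^ 2 := by
  have h1 : T * X ≤ 9 / 4 * lam * w * lam :=
    mul_le_mul hT1 hXl hX0 (by positivity)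
  have h2 : (3 + La) ^ 2 ≤ (3 + lam) ^ 2 :=
    pow_le_pow_left₀ (by linarith) (by linarith) 2
  have h3 : (3 + lam) ^ 2 ≤ 4 * lam ^ 2 := by nlinarith
  have h4 : (3 + La) ^ 2 * w ≤ 4 * lam ^ 2 * w :=
    mul_le_mul_of_nonneg_right (h2.trans h3) hw0.le
  have h5 : 1 + 3 * lam ≤ 12 * lam ^ 2 := by nlinarith
  have h7 : 0 ≤ lam ^ 2 * w := by positivity
  have h6 : 1 + 3 * lam + T * X + (3 + La) ^ 2 * w / 2 ≤ (12 + 20 * w) * lam ^ 2 := by
    have h9 : 9 / 4 * lam * w * lam = 9 / 4 * (lam ^ 2 * w) := by ring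
    have h10 : 4 * lam ^ 2 * w = 4 * (lam ^ 2 * w) := by ring
    have h11 : (12 + 20 * w) * lam ^ 2 = 12 * lam ^ 2 + 20 * (lam ^ 2 * w) := by ring
    linarith
  have h8 := mul_le_mul_of_nonneg_left h6 (by linarith : (0 : ℝ) ≤ s + 1)
  have h12 : (s + 1) * ((12 + 20 * w) * lam ^ 2) = (12 + 20 * w) * (s + 1) * lam ^ 2 := by ring
  linarith

private theorem aux2 {T t₀ lam w La : ℝ} (ht00 : 0 ≤ t₀) (hlam4 : 4 ≤ lam) (hw0 : 0 < w)
    (hLa0 : 0 ≤ La) (hLal : La ≤ lam / 2) (hT2 : 7 / 4 * lam * w ≤ T) :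
    t₀ * (1 + 3 * lam + (3 + La) ^ 2 * w / 2 - T * La) ≤
      t₀ * (-(3 / 2 * w) * La * lam + (12 + 20 * w) * lam) := by
  refine mul_le_mul_of_nonneg_left ?_ ht00
  have h1 : 7 / 4 * lam * w * La ≤ T * La := mul_le_mul_of_nonneg_right hT2 hLa0
  have h2 : La * La ≤ lam / 2 * La := mul_le_mul_of_nonneg_right hLal hLa0
  have h3 : La * La * w ≤ lam / 2 * La * w := mul_le_mul_of_nonneg_right h2 hw0.le
  have h4 : La * w ≤ lam / 2 * w := mul_le_mul_of_nonneg_right hLal hw0.le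
  have h5 : w ≤ lam * w := by nlinarith
  have h6 : (3 + La) ^ 2 * w / 2 = 9 / 2 * w + 3 * (La * w) + La * La * w / 2 := by ring
  have h7 : 1 + 3 * lam ≤ 12 * lam := by linarith
  have h8 : 0 ≤ lam * w := by positivity
  have h9 : 7 / 4 * lam * w * La = 7 / 4 * (lam * w * La) := by ring
  have h10 : lam / 2 * La * w = 1 / 2 * (lam * w * La) := by ring
  have h11 : lam / 2 * w = 1 / 2 * (lam * w) := by ring
  have h12 : -(3 / 2 * w) * La * lam + (12 + 20 * w) * lam =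
      -(3 / 2 * (lam * w * La)) + 12 * lam + 20 * (lam * w) := by ring
  rw [h6, h12]
  linarith

/-- **NIR** (the unmatched part) -/
theorem hNIR (hNIO : StNIO) (hSIZ : StSIZ) : StNIR := by
  intro p ε hp0 hp1 hε0 hε1
  have hL : 0 < bb p := bb_pos hp0 hp1
  obtain ⟨n1, hn1⟩ := hNIO p ε hp0 hp1 hε0 hε1
  obtain ⟨n2, hn2⟩ := hSIZ p ε (1 / 4) 0 hp0 hp1 hε0 hε1 (by norm_num)
  have hC1 : (1 : ℝ) ≤ 12 + 20 / bb p := by
    have : 0 < 20 / bb p := by positivity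
    linarith
  refine ⟨12 + 20 / bb p, hC1, max n1 (max n2 1), ?_⟩
  intro n T N N₀ t₀ th s D hn hwin hN1 hN2 hs hD hN0
  have hnn1 : n1 ≤ n := le_trans (le_max_left _ _) hn
  have hnn2 : n2 ≤ n := le_trans (le_trans (le_max_left _ _) (le_max_right _ _)) hn
  have hnn3 : 1 ≤ n := le_trans (le_trans (le_max_right _ _) (le_max_right _ _)) hn
  have hn1R : (1 : ℝ) ≤ n := by exact_mod_cast hnn3
  have hn0R : (0 : ℝ) < n := by linarith
  have hz := hn2 n T th hnn2 hwin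
  have ht0 : 4 ≤ Real.log n := by
    have := hz.t0
    norm_num at this
    exact this
  have ht1 := abs_le.1 hz.t1
  have hT4 : 4 ≤ T := by
    have := hz.t4.1
    omega
  have hTR : (4 : ℝ) ≤ T := by exact_mod_cast hT4
  have hT0 : (0 : ℝ) < T := by linarith
  have hn14 : (n : ℝ) ^ (1 / 4 : ℝ) ≤ (n : ℝ) ^ (1 / 2 + ε : ℝ) :=
    Real.rpow_le_rpow_of_exponent_le hn1R (by linarith)
  have hTN : (T : ℝ) ≤ N := by
    have h1 : (T : ℝ) ≤ (T : ℝ) ^ 8 := le_self_pow₀ (by linarith) (by norm_num)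
    exact le_trans h1 (le_trans hz.t3 (le_trans hn14 hN1))
  have hTN' : T ≤ N := by exact_mod_cast hTN
  have hN0R : (0 : ℝ) < N := by linarith
  have hNnR : (N : ℝ) ≤ n := by exact_mod_cast hN2
  obtain ⟨hOm1, hOm2⟩ := hn1 n T N th hnn1 hwin hTN' hN2
  -- notation
  obtain ⟨lam, hlam⟩ : ∃ x : ℝ, x = Real.log n := ⟨_, rfl⟩
  obtain ⟨La, hLa⟩ : ∃ x : ℝ, x = Real.log ((n : ℝ) / N) := ⟨_, rfl⟩
  obtain ⟨X, hX⟩ : ∃ x : ℝ, x = Real.log ((N : ℝ) / T) := ⟨_, rfl⟩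
  obtain ⟨L, hLe⟩ : ∃ x : ℝ, x = bb p := ⟨_, rfl⟩
  have hLa0 : 0 ≤ La := by
    rw [hLa]
    exact Real.log_nonneg ((one_le_div hN0R).2 hNnR)
  have hX0 : 0 ≤ X := by
    rw [hX]
    exact Real.log_nonneg ((one_le_div hT0).2 hTN)
  have hsum : X + La = lam - Real.log T := by
    rw [hX, hLa, hlam, Real.log_div hN0R.ne' hT0.ne', Real.log_div hn0R.ne' hN0R.ne']
    ring
  have hlT : 0 ≤ Real.log T := Real.log_nonneg (by linarith)
  have hnT : Real.log ((n : ℝ) / T) = X + La := by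
    rw [hsum, hlam, Real.log_div hn0R.ne' hT0.ne']
  have hXl : X ≤ lam := by linarith
  have hLal : La ≤ lam / 2 := by
    have h1 : (1 / 2 + ε) * lam ≤ Real.log N := by
      rw [hlam, ← Real.log_rpow hn0R]
      exact Real.log_le_log (Real.rpow_pos_of_pos hn0R _) hN1
    have h2 : La = lam - Real.log N := by
      rw [hLa, hlam, Real.log_div hn0R.ne' hN0R.ne']
    have h3 : 0 ≤ ε * lam := by
      rw [hlam]
      exact mul_nonneg hε0.le (by linarith)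
    rw [h2]
    nlinarith
  have hlam4 : 4 ≤ lam := by rw [hlam]; exact ht0
  have hL' : 0 < L := by rw [hLe]; exact hL
  -- bound for log Om
  have hOm0 : 0 < Om p n T N := lt_of_lt_of_le hn0R hOm2
  have hlogOm : Real.log (Om p n T N) ≤ 3 * lam + T * X + (3 + La) ^ 2 / (2 * L) := by
    have h1 := Real.log_le_log hOm0 hOm1
    rw [Real.log_mul (by positivity) (by positivity), Real.log_mul (by positivity) (by positivity),
      Real.log_exp, Real.log_pow, Real.log_pow, ← hlam, ← hX, ← hLa, ← hLe] at h1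
    push_cast at h1
    linarith
  obtain ⟨t, ht⟩ : ∃ x : ℝ, x = (t₀ : ℝ) + s + 1 := ⟨_, rfl⟩
  have ht00 : (0 : ℝ) ≤ t₀ := Nat.cast_nonneg _
  have ht1' : 1 ≤ t := by rw [ht]; linarith
  have hlogt : Real.log (Real.exp 1 * Om p n T N / t) ≤
      1 + (3 * lam + T * X + (3 + La) ^ 2 / (2 * L)) := by
    rw [Real.log_div (by positivity) (by positivity), Real.log_mul (by positivity) hOm0.ne',
      Real.log_exp]
    have := Real.log_nonneg ht1'
    linarith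
  have hmain1 : t * Real.log (Real.exp 1 * Om p n T N / t) ≤
      t * (1 + (3 * lam + T * X + (3 + La) ^ 2 / (2 * L))) :=
    mul_le_mul_of_nonneg_left hlogt (by linarith)
  have hmain2 : -((N₀ : ℝ) * (X + La)) ≤ -(((t₀ : ℝ) * T - D) * (X + La)) := by
    have := mul_le_mul_of_nonneg_right hN0 (add_nonneg hX0 hLa0)
    linarith
  have hDl : D * (X + La) ≤ D * lam := mul_le_mul_of_nonneg_left (by linarith) hD
  -- sizes of L T
  have hLT1 : L * T ≤ 9 / 4 * lam := by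
    have := ht1.2
    rw [← hlam, ← hLe] at this
    linarith
  have hLT2 : 7 / 4 * lam ≤ L * T := by
    have := ht1.1
    rw [← hlam, ← hLe] at this
    linarith
  obtain ⟨w, hw⟩ : ∃ x : ℝ, x = 1 / L := ⟨_, rfl⟩
  have hw0 : 0 < w := by rw [hw]; positivity
  have hwL : w * L = 1 := by rw [hw]; field_simp
  have hT1 : (T : ℝ) ≤ 9 / 4 * lam * w := by
    have h1 : (T : ℝ) = w * (L * T) := by rw [← mul_assoc, hwL, one_mul]
    have h2 := mul_le_mul_of_nonneg_left hLT1 hw0.le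
    rw [h1]
    linarith
  have hT2 : 7 / 4 * lam * w ≤ (T : ℝ) := by
    have h1 : (T : ℝ) = w * (L * T) := by rw [← mul_assoc, hwL, one_mul]
    have h2 := mul_le_mul_of_nonneg_left hLT2 hw0.le
    rw [h1]
    linarith
  have hdiv : (3 + La) ^ 2 / (2 * L) = (3 + La) ^ 2 * w / 2 := by
    rw [hw]
    field_simp
  have h20 : (20 : ℝ) / bb p = 20 * w := by
    rw [hw, hLe]
    ring
  have h32 : (3 : ℝ) / (2 * bb p) = 3 / 2 * w := by
    rw [hw, hLe]
    field_simp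
  have hs1 := aux1 (T := (T : ℝ)) hs hlam4 hw0 hX0 hXl hLa0 hLal hT1 hT0.le
  have ht2 := aux2 ht00 hlam4 hw0 hLa0 hLal hT2
  rw [hnT, ← hLa, ← hlam, h20, h32, ← ht]
  have h9 : t * (1 + (3 * lam + T * X + (3 + La) ^ 2 / (2 * L))) =
      (s + 1) * (1 + 3 * lam + T * X + (3 + La) ^ 2 * w / 2) +
      (t₀ : ℝ) * (1 + 3 * lam + (3 + La) ^ 2 * w / 2) + (t₀ : ℝ) * T * X := by
    rw [hdiv, ht]
    ring
  have h10 : ((t₀ : ℝ) * T - D) * (X + La) =
      (t₀ : ℝ) * T * X + (t₀ : ℝ) * (T * La) - D * (X + La) := by ring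
  have h11 : (t₀ : ℝ) * (1 + 3 * lam + (3 + La) ^ 2 * w / 2 - T * La) =
      (t₀ : ℝ) * (1 + 3 * lam + (3 + La) ^ 2 * w / 2) - (t₀ : ℝ) * (T * La) := by ring
  have h12 : (t₀ : ℝ) * (-(3 / 2 * w) * La * lam + (12 + 20 * w) * lam) =
      -(3 / 2 * w) * t₀ * La * lam + (12 + 20 * w) * t₀ * lam := by ring
  linarith

end Pool.Agent.Helper98.UX
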